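import Mathlib

/-!
# Schläfli's formula from the inverse of the Cayley-Menger matrix
-/

set_option autoImplicit false

namespace Pool.Agent.H70En

open Real

/-- derivative of the angle `arccos (N / √(A * B))`, all of `A`, `B` negative -/
theorem acos_neg {N A B : ℝ → ℝ} {N' A' B' x0 : ℝ} (hN : HasDerivAt N N' x0)
    (hA : HasDerivAt A A' x0) (hB : HasDerivAt B B' x0) (pA : A x0 < 0) (pB : B x0 < 0)
    (h : 0 < A x0 * B x0 - N x0 ^ 2) :
    HasDerivAt (fun x => arccos (N x / √(A x * B x)))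
      (-(N' - N x0 * (A' / (2 * A x0) + B' / (2 * B x0))) / √(A x0 * B x0 - N x0 ^ 2)) x0 := by
  have hD : 0 < A x0 * B x0 := mul_pos_of_neg_of_neg pA pB
  have hS : 0 < √(A x0 * B x0) := sqrt_pos.2 hD
  have hS2 : √(A x0 * B x0) ^ 2 = A x0 * B x0 := sq_sqrt hD.le
  have dS : HasDerivAt (fun x => √(A x * B x))
      ((A' * B x0 + A x0 * B') / (2 * √(A x0 * B x0))) x0 :=
    (hA.mul hB).sqrt hD.ne'
  have dc := hN.div dS hS.ne'
  have hG2 : 0 < √(A x0 * B x0 - N x0 ^ 2) := sqrt_pos.2 h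
  have e1 : 1 - (N x0 / √(A x0 * B x0)) ^ 2 =
      (√(A x0 * B x0 - N x0 ^ 2) / √(A x0 * B x0)) ^ 2 := by
    rw [div_pow, div_pow, sq_sqrt h.le, hS2, eq_div_iff hD.ne', sub_mul,
      div_mul_cancel₀ _ hD.ne', one_mul]
  have e2 : 0 < 1 - (N x0 / √(A x0 * B x0)) ^ 2 := by
    rw [e1]
    positivity
  have e3 : √(1 - (N x0 / √(A x0 * B x0)) ^ 2) =
      √(A x0 * B x0 - N x0 ^ 2) / √(A x0 * B x0) := by
    rw [e1]
    exact sqrt_sq (by positivity)
  have hm : N x0 / √(A x0 * B x0) ≠ -1 := by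
    intro hh
    rw [hh] at e2
    norm_num at e2
  have hp : N x0 / √(A x0 * B x0) ≠ 1 := by
    intro hh
    rw [hh] at e2
    norm_num at e2
  have da := (hasDerivAt_arccos hm hp).comp x0 dc
  convert! da using 1
  rw [e3]
  have hne : √(A x0 * B x0) ≠ 0 := hS.ne'
  have p1' := pA.ne
  have p2' := pB.ne
  have hG2' := hG2.ne'
  field_simp
  rw [hS2]
  ring

/-- Schläfli's formula, analytic form. -/
theorem schlaefli {α : Type} (T : Finset α) [DecidableEq α] (P : ℝ → α → α → ℝ) (P' : α → α → ℝ)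
    (x0 : ℝ) (hd : ∀ k ∈ T, ∀ l ∈ T, HasDerivAt (fun x => P x k l) (P' k l) x0)
    (hs : ∀ k ∈ T, ∀ l ∈ T, P x0 k l = P x0 l k)
    (h0 : ∀ k ∈ T, ∑ l ∈ T, P x0 k l = 0) (h0' : ∀ k ∈ T, ∑ l ∈ T, P' k l = 0)
    (hneg : ∀ k ∈ T, P x0 k k < 0)
    (hpos : ∀ k ∈ T, ∀ l ∈ T, k ≠ l → 0 < P x0 k k * P x0 l l - P x0 k l ^ 2) :
    ∃ th : α → α → ℝ,
      (∀ k ∈ T, ∀ l ∈ T, k ≠ l →
        HasDerivAt (fun x => arccos (P x k l / √(P x k k * P x l l))) (th k l) x0) ∧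
      ∑ k ∈ T, ∑ l ∈ T, (if k ≠ l then √(P x0 k k * P x0 l l - P x0 k l ^ 2) * th k l else 0) = 0 := by
  refine ⟨fun k l => -(P' k l - P x0 k l * (P' k k / (2 * P x0 k k) + P' l l / (2 * P x0 l l))) /
    √(P x0 k k * P x0 l l - P x0 k l ^ 2), ?_, ?_⟩
  · intro k hk l hl hkl
    exact acos_neg (hd k hk l hl) (hd k hk k hk) (hd l hl l hl) (hneg k hk) (hneg l hl)
      (hpos k hk l hl hkl)
  · have e : ∑ k ∈ T, ∑ l ∈ T, (if k ≠ l then √(P x0 k k * P x0 l l - P x0 k l ^ 2) *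
        (-(P' k l - P x0 k l * (P' k k / (2 * P x0 k k) + P' l l / (2 * P x0 l l))) /
          √(P x0 k k * P x0 l l - P x0 k l ^ 2)) else 0) =
        ∑ k ∈ T, ∑ l ∈ T,
          -(P' k l - P x0 k l * (P' k k / (2 * P x0 k k) + P' l l / (2 * P x0 l l))) := by
      refine Finset.sum_congr rfl fun k hk => Finset.sum_congr rfl fun l hl => ?_
      by_cases hkl : k = l
      · subst hkl
        have := (hneg k hk).ne
        rw [if_neg (by simp)]
        field_simp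
        ring
      · rw [if_pos hkl]
        have : √(P x0 k k * P x0 l l - P x0 k l ^ 2) ≠ 0 := (sqrt_pos.2 (hpos k hk l hl hkl)).ne'
        field_simp
    rw [e]
    have r2 : ∀ l ∈ T, ∑ k ∈ T, P x0 k l = 0 := by
      intro l hl
      rw [← h0 l hl]
      exact Finset.sum_congr rfl fun k hk => hs k hk l hl
    have s1 : ∑ k ∈ T, ∑ l ∈ T, P' k l = 0 := Finset.sum_eq_zero h0'
    have s2 : ∑ k ∈ T, ∑ l ∈ T, P x0 k l * (P' k k / (2 * P x0 k k)) = 0 := by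
      refine Finset.sum_eq_zero fun k hk => ?_
      rw [← Finset.sum_mul, h0 k hk, zero_mul]
    have s3 : ∑ k ∈ T, ∑ l ∈ T, P x0 k l * (P' l l / (2 * P x0 l l)) = 0 := by
      rw [Finset.sum_comm]
      refine Finset.sum_eq_zero fun l hl => ?_
      rw [← Finset.sum_mul, r2 l hl, zero_mul]
    have : ∑ k ∈ T, ∑ l ∈ T,
        -(P' k l - P x0 k l * (P' k k / (2 * P x0 k k) + P' l l / (2 * P x0 l l))) =
        -(∑ k ∈ T, ∑ l ∈ T, P' k l) + ∑ k ∈ T, ∑ l ∈ T, P x0 k l * (P' k k / (2 * P x0 k k)) +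
          ∑ k ∈ T, ∑ l ∈ T, P x0 k l * (P' l l / (2 * P x0 l l)) := by
      rw [← Finset.sum_neg_distrib, ← Finset.sum_add_distrib, ← Finset.sum_add_distrib]
      refine Finset.sum_congr rfl fun k _ => ?_
      rw [← Finset.sum_neg_distrib, ← Finset.sum_add_distrib, ← Finset.sum_add_distrib]
      refine Finset.sum_congr rfl fun l _ => ?_
      ring
    rw [this, s1, s2, s3]
    simp

end Pool.Agent.H70En
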