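import Pool.Agent.H50En.Defs

/-!
# The Cayley-Menger matrix of a pyramid
-/

set_option autoImplicit false

namespace Pool.Agent.H70En

open Real Finset Pool.Agent.H50En

section abs

variable {β : Type*} [Fintype β] [DecidableEq β]

/-- the matrix of the pyramid in the coordinates `Bool ⊕ β` -/
def MM (β : Type*) [DecidableEq β] (t : ℝ) : Matrix (Bool ⊕ β) (Bool ⊕ β) ℝ :=
  Matrix.fromBlocks (Matrix.of fun i j => if i = j then 0 else 1)
    (Matrix.of fun i _ => if i = true then t else 1)
    (Matrix.of fun _ j => if j = true then t else 1)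
    (Matrix.of fun i j => if i = j then 0 else 1)

/-- its inverse -/
noncomputable def PP (β : Type*) [Fintype β] [DecidableEq β] (t : ℝ) :
    Matrix (Bool ⊕ β) (Bool ⊕ β) ℝ :=
  Matrix.fromBlocks
    (Matrix.of fun i j =>
      if i = true then
        (if j = true then -(Fintype.card β : ℝ) / (2 * (1 / 2 + Fintype.card β * (t - 1 / 2)))
          else 1 - Fintype.card β * t / (2 * (1 / 2 + Fintype.card β * (t - 1 / 2))))
      else (if j = true then 1 - Fintype.card β * t / (2 * (1 / 2 + Fintype.card β * (t - 1 / 2)))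
          else -(Fintype.card β * t ^ 2) / (2 * (1 / 2 + Fintype.card β * (t - 1 / 2)))))
    (Matrix.of fun i _ => if i = true then 1 / (2 * (1 / 2 + Fintype.card β * (t - 1 / 2)))
      else t / (2 * (1 / 2 + Fintype.card β * (t - 1 / 2))))
    (Matrix.of fun _ j => if j = true then 1 / (2 * (1 / 2 + Fintype.card β * (t - 1 / 2)))
      else t / (2 * (1 / 2 + Fintype.card β * (t - 1 / 2))))
    (Matrix.of fun i j =>
      if i = j then -(1 / 2 + (Fintype.card β - 1) * (t - 1 / 2)) /
        (1 / 2 + Fintype.card β * (t - 1 / 2))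
      else (t - 1 / 2) / (1 / 2 + Fintype.card β * (t - 1 / 2)))

theorem sum_ite' (b : β) (u v : ℝ) : ∑ x : β, (if x = b then u else v) =
    u + (Fintype.card β - 1) * v := by
  have : ∀ x : β, (if x = b then u else v) = v + (if x = b then u - v else 0) := by
    intro x
    split_ifs <;> ring
  simp only [this, Finset.sum_add_distrib]
  simp
  ring

theorem sum_ite2 (b1 b2 : β) (u v : ℝ) :
    ∑ x : β, (if b1 = x then 0 else 1) * (if x = b2 then u else v) =
      (u + (Fintype.card β - 1) * v) - (if b1 = b2 then u else v) := by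
  have : ∀ x : β, (if b1 = x then (0 : ℝ) else 1) * (if x = b2 then u else v) =
      (if x = b2 then u else v) - (if b1 = x then (if b1 = b2 then u else v) else 0) := by
    intro x
    by_cases h : b1 = x
    · subst h
      simp
    · simp [h]
  simp only [this, Finset.sum_sub_distrib, sum_ite']
  simp

theorem MM_mul_PP (t : ℝ) (hE : 1 / 2 + Fintype.card β * (t - 1 / 2) ≠ 0) :
    MM β t * PP β t = 1 := by
  obtain ⟨m, hm⟩ : ∃ m : ℝ, m = (Fintype.card β : ℝ) := ⟨_, rfl⟩
  rw [← hm] at hE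
  obtain ⟨E, hEd⟩ : ∃ E : ℝ, E = 1 / 2 + m * (t - 1 / 2) := ⟨_, rfl⟩
  rw [← hEd] at hE
  have hs1 : ∀ (b : β) (u : ℝ), ∑ x : β, (if b = x then (0 : ℝ) else 1) * u = (m - 1) * u := by
    intro b u
    have := sum_ite2 b b u u
    simp only [ite_self] at this
    rw [this, hm]
    ring
  unfold MM PP
  rw [Matrix.fromBlocks_multiply, ← Matrix.fromBlocks_one]
  congr 1
  · ext i j
    simp only [Matrix.add_apply, Matrix.mul_apply, Matrix.of_apply, Fintype.sum_bool,
      Finset.sum_const, Finset.card_univ, nsmul_eq_mul, ← hm, ← hEd]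
    rcases i <;> rcases j <;> simp <;> field_simp <;> rw [hEd] <;> ring
  · ext i j
    simp only [Matrix.add_apply, Matrix.mul_apply, Matrix.of_apply, Fintype.sum_bool, ← hm,
      ← Finset.mul_sum, sum_ite', Matrix.zero_apply, ← hEd]
    rcases i <;> simp <;> field_simp <;> rw [hEd] <;> ring
  · ext i j
    simp only [Matrix.add_apply, Matrix.mul_apply, Matrix.of_apply, Fintype.sum_bool, ← hm,
      hs1, Matrix.zero_apply, ← hEd]
    rcases j <;> simp <;> field_simp <;> rw [hEd] <;> ring
  · ext i j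
    simp only [Matrix.add_apply, Matrix.mul_apply, Matrix.of_apply, Fintype.sum_bool, ← hm,
      sum_ite2, ← hEd]
    by_cases h : i = j
    · subst h
      simp
      field_simp
      rw [hEd]
      ring
    · simp [h]
      field_simp
      rw [hEd]
      ring

theorem det_MM (t : ℝ) : |(MM β t).det| = |1 + 2 * Fintype.card β * (t - 1 / 2)| := by
  set A : Matrix Bool Bool ℝ := Matrix.of fun i j => if i = j then 0 else 1 with hA
  have hAA : A * A = 1 := by
    ext i j
    rw [Matrix.mul_apply, Fintype.sum_bool]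
    rcases i <;> rcases j <;> simp [hA]
  have hdet : |A.det| = 1 := by
    have := congrArg Matrix.det hAA
    rw [Matrix.det_mul, Matrix.det_one] at this
    have h2 : |A.det| * |A.det| = 1 := by rw [← abs_mul, this, abs_one]
    nlinarith [abs_nonneg A.det]
  let _ : Invertible A := ⟨A, hAA, hAA⟩
  unfold MM
  rw [← hA, Matrix.det_fromBlocks₁₁, abs_mul, hdet, one_mul]
  have hinv : ⅟A = A := rfl
  rw [hinv]
  have e : (Matrix.of fun i j : β => if i = j then (0 : ℝ) else 1) -
      (Matrix.of fun (_ : β) (j : Bool) => if j = true then t else 1) * A *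
        (Matrix.of fun (i : Bool) (_ : β) => if i = true then t else 1) =
      -(1 + Matrix.replicateCol Unit (fun _ : β => (2 * t - 1)) *
        Matrix.replicateRow Unit (fun _ : β => (1 : ℝ))) := by
    ext i j
    simp only [Matrix.sub_apply, Matrix.mul_apply, Fintype.sum_bool, Matrix.of_apply, hA,
      Matrix.neg_apply, Matrix.add_apply, Matrix.replicateCol_apply, Matrix.replicateRow_apply,
      Matrix.one_apply]
    by_cases h : i = j
    · simp [h]
      ring
    · simp [h]
      ring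
  rw [e, Matrix.det_neg, Matrix.det_one_add_replicateCol_mul_replicateRow, abs_mul, abs_pow,
    abs_neg, abs_one, one_pow, one_mul]
  congr 1
  simp [dotProduct]
  ring

end abs

section pyr

variable {V : Type} [DecidableEq V]

/-- the coordinates `Bool ⊕ base` on `Option s` -/
noncomputable def ee (s : Finset V) (a : V) (ha : a ∈ s) :
    Bool ⊕ {b : s // b ≠ ⟨a, ha⟩} ≃ Option s :=
  Equiv.ofBijective
    (fun i => match i with
      | Sum.inl false => none
      | Sum.inl true => some ⟨a, ha⟩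
      | Sum.inr b => some b.1)
    (by
      constructor
      · rintro (i | ⟨b, hb⟩) (j | ⟨c, hc⟩) h
        · rcases i <;> rcases j <;> simp_all
        · rcases i
          · simp at h
          · simp only [Option.some.injEq] at h
            exact absurd h.symm hc
        · rcases j
          · simp at h
          · simp only [Option.some.injEq] at h
            exact absurd h hb
        · simp only [Option.some.injEq] at h
          subst h
          rfl
      · rintro (_ | b)
        · exact ⟨Sum.inl false, rfl⟩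
        · by_cases hb : b = ⟨a, ha⟩
          · exact ⟨Sum.inl true, by simp [hb]⟩
          · exact ⟨Sum.inr ⟨b, hb⟩, rfl⟩)

theorem ee_none (s : Finset V) (a : V) (ha : a ∈ s) : ee s a ha (Sum.inl false) = none := rfl
theorem ee_a (s : Finset V) (a : V) (ha : a ∈ s) : ee s a ha (Sum.inl true) = some ⟨a, ha⟩ := rfl
theorem ee_b (s : Finset V) (a : V) (ha : a ∈ s) (b) : ee s a ha (Sum.inr b) = some b.1 := rfl

/-- D: the pyramid with apex `a`, `m` base vertices, base edges `1` and lateral edges `t`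
(`t = 1`: the regular simplex). -/
theorem pyramid {z : Sym2 V → ℝ} {s : Finset V} {a : V} (ha : a ∈ s) {m : ℕ} (hm : #s = m + 1)
    (hm1 : 1 ≤ m) {t : ℝ} (ht : 0 < 1 / 2 + m * (t - 1 / 2))
    (h1 : ∀ x ∈ s, ∀ y ∈ s, x ≠ a → y ≠ a → x ≠ y → z s(x, y) = 1)
    (h2 : ∀ x ∈ s, x ≠ a → z s(a, x) = t) :
    |(CM z s).det| = 1 + 2 * m * (t - 1 / 2) ∧
    Q z s a a = - m / (2 * (1 / 2 + m * (t - 1 / 2))) ∧
    (∀ x ∈ s, x ≠ a → Q z s a x = 1 / (2 * (1 / 2 + m * (t - 1 / 2)))) ∧
    (∀ x ∈ s, x ≠ a → Q z s x x = - (1 / 2 + (m - 1) * (t - 1 / 2)) / (1 / 2 + m * (t - 1 / 2))) ∧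
    (∀ x ∈ s, ∀ y ∈ s, x ≠ a → y ≠ a → x ≠ y →
      Q z s x y = (t - 1 / 2) / (1 / 2 + m * (t - 1 / 2))) := by
  have hcard : Fintype.card {b : s // b ≠ ⟨a, ha⟩} = m := by
    rw [Fintype.card_subtype_compl, Fintype.card_subtype_eq, Fintype.card_coe, hm]
    simp
  have hsub : (CM z s).submatrix (ee s a ha) (ee s a ha) = MM {b : s // b ≠ ⟨a, ha⟩} t := by
    ext i j
    rw [Matrix.submatrix_apply]
    rcases i with (i | ⟨⟨x, hx⟩, hxa⟩) <;> rcases j with (j | ⟨⟨y, hy⟩, hya⟩)
    · rcases i <;> rcases j <;> simp [ee_none, ee_a, CM, MM]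
    · have hya' : y ≠ a := fun h => hya (by simp [h])
      rcases i
      · simp [ee_none, ee_b, CM, MM]
      · simp [ee_a, ee_b, CM, MM, hya'.symm, h2 y hy hya']
    · have hxa' : x ≠ a := fun h => hxa (by simp [h])
      rcases j
      · simp [ee_none, ee_b, CM, MM]
      · simp [ee_a, ee_b, CM, MM, hxa', Sym2.eq_swap (a := x) (b := a), h2 x hx hxa']
    · have hya' : y ≠ a := fun h => hya (by simp [h])
      have hxa' : x ≠ a := fun h => hxa (by simp [h])
      by_cases hxy : x = y
      · subst hxy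
        simp [ee_b, CM, MM]
      · simp [ee_b, CM, MM, hxy, h1 x hx y hy hxa' hya' hxy]
  have hMP : MM {b : s // b ≠ ⟨a, ha⟩} t * PP {b : s // b ≠ ⟨a, ha⟩} t = 1 :=
    MM_mul_PP t (by rw [hcard]; exact ht.ne')
  have hinv : (CM z s)⁻¹.submatrix (ee s a ha) (ee s a ha) = PP {b : s // b ≠ ⟨a, ha⟩} t := by
    rw [← Matrix.inv_submatrix_equiv, hsub]
    exact Matrix.inv_eq_right_inv hMP
  have key : ∀ i j, (CM z s)⁻¹ (ee s a ha i) (ee s a ha j) = PP {b : s // b ≠ ⟨a, ha⟩} t i j := by
    intro i j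
    rw [← hinv, Matrix.submatrix_apply]
  refine ⟨?_, ?_, ?_, ?_, ?_⟩
  · rw [← Matrix.det_submatrix_equiv_self (ee s a ha), hsub, det_MM, hcard, abs_of_pos]
    linarith
  · have := key (Sum.inl true) (Sum.inl true)
    rw [ee_a] at this
    rw [Q, dif_pos ⟨ha, ha⟩, this]
    simp [PP, hcard]
  · intro x hx hxa
    have hxa' : (⟨x, hx⟩ : s) ≠ ⟨a, ha⟩ := fun h => hxa (by simpa using h)
    have := key (Sum.inl true) (Sum.inr ⟨⟨x, hx⟩, hxa'⟩)
    rw [ee_a, ee_b] at this
    rw [Q, dif_pos ⟨ha, hx⟩, this]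
    simp [PP, hcard]
  · intro x hx hxa
    have hxa' : (⟨x, hx⟩ : s) ≠ ⟨a, ha⟩ := fun h => hxa (by simpa using h)
    have := key (Sum.inr ⟨⟨x, hx⟩, hxa'⟩) (Sum.inr ⟨⟨x, hx⟩, hxa'⟩)
    rw [ee_b] at this
    rw [Q, dif_pos ⟨hx, hx⟩, this]
    simp [PP, hcard]
  · intro x hx y hy hxa hya hxy
    have hxa' : (⟨x, hx⟩ : s) ≠ ⟨a, ha⟩ := fun h => hxa (by simpa using h)
    have hya' : (⟨y, hy⟩ : s) ≠ ⟨a, ha⟩ := fun h => hya (by simpa using h)
    have := key (Sum.inr ⟨⟨x, hx⟩, hxa'⟩) (Sum.inr ⟨⟨y, hy⟩, hya'⟩)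
    rw [ee_b, ee_b] at this
    rw [Q, dif_pos ⟨hx, hy⟩, this]
    simp [PP, hcard, hxy]

end pyr

end Pool.Agent.H70En
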