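import Mathlib

/-!
# Angle identities for gradients of barycentric coordinates
-/

set_option autoImplicit false

namespace Pool.Agent.H70En

open Real InnerProductGeometry

variable {E : Type*} [NormedAddCommGroup E] [InnerProductSpace ℝ E]

/-- R3, old faces -/
theorem two_term {u v : E} (hu : u ≠ 0) (hv : v ≠ 0) :
    (π - angle u (v - u)) + (π - angle v (u - v)) = π - angle u v := by
  have h := angle_add_angle_sub_add_angle_sub_eq_pi (x := u) (y := v) hv
  have h1 : angle u (v - u) = π - angle u (u - v) := by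
    rw [← angle_neg_right, neg_sub]
  have h2 : angle v (u - v) = π - angle v (v - u) := by
    rw [← angle_neg_right, neg_sub]
  rw [h1, h2]
  linarith

/-- R3, old faces, with the factor of the new gradient -/
theorem two_term_smul {u v : E} (hu : u ≠ 0) (hv : v ≠ 0) {c : ℝ} (hc : 0 < c) :
    (π - angle (c • u) (v - u)) + (π - angle (c • v) (u - v)) = π - angle u v := by
  rw [angle_smul_left_of_pos _ _ hc, angle_smul_left_of_pos _ _ hc]
  exact two_term hu hv

/-- R3, new faces -/
theorem three_term {u v w : E} (huv : u ≠ v) (huw : u ≠ w) :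
    (π - angle (v - u) (w - u)) + (π - angle (u - v) (w - v)) + (π - angle (u - w) (v - w)) =
      2 * π := by
  have hx : v - u ≠ 0 := sub_ne_zero.2 huv.symm
  have hy : w - u ≠ 0 := sub_ne_zero.2 huw.symm
  have h := angle_add_angle_sub_add_angle_sub_eq_pi (x := v - u) (y := w - u) hy
  have e1 : v - u - (w - u) = v - w := by abel
  have e2 : w - u - (v - u) = w - v := by abel
  rw [e1, e2] at h
  have h1 : angle (u - v) (w - v) = angle (v - u) (v - w) := by
    rw [← angle_neg_neg, neg_sub, neg_sub]
  have h2 : angle (u - w) (v - w) = angle (w - u) (w - v) := by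
    rw [← angle_neg_neg, neg_sub, neg_sub]
  rw [h1, h2]
  linarith

/-- R3: the dihedral angle from the Gram matrix of the gradients -/
theorem arccos_gram {u v : E} {a b c : ℝ} (hu : u ≠ 0) (hv : v ≠ 0)
    (ha : a = -(1 / 2) * inner ℝ u u) (hb : b = -(1 / 2) * inner ℝ v v)
    (hc : c = -(1 / 2) * inner ℝ u v) :
    arccos (c / √(a * b)) = π - angle u v := by
  have hu' : 0 < ‖u‖ := norm_pos_iff.2 hu
  have hv' : 0 < ‖v‖ := norm_pos_iff.2 hv
  have e : a * b = (1 / 2 * (‖u‖ * ‖v‖)) ^ 2 := by
    rw [ha, hb, real_inner_self_eq_norm_sq, real_inner_self_eq_norm_sq]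
    ring
  rw [e, sqrt_sq (by positivity), hc, angle, ← arccos_neg]
  congr 1
  field_simp

/-- R3: negative diagonal -/
theorem gram_neg {u : E} (hu : u ≠ 0) : -(1 / 2 : ℝ) * inner ℝ u u < 0 := by
  have := norm_pos_iff.2 hu
  rw [real_inner_self_eq_norm_sq]
  nlinarith [pow_pos this 2]

/-- R3: positive minors, strict Cauchy-Schwarz -/
theorem gram_pos {u v : E} (h : LinearIndependent ℝ ![u, v]) :
    0 < (-(1 / 2 : ℝ) * inner ℝ u u) * (-(1 / 2) * inner ℝ v v) - (-(1 / 2) * inner ℝ u v) ^ 2 := by
  have hu : u ≠ 0 := h.ne_zero 0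
  have hv : v ≠ 0 := h.ne_zero 1
  have hvv : 0 < inner ℝ v v := real_inner_self_pos.2 hv
  set c : ℝ := inner ℝ u v / inner ℝ v v with hc
  have hne : u - c • v ≠ 0 := by
    intro h0
    have := (LinearIndependent.pair_iff.1 h) 1 (-c) (by rw [one_smul, neg_smul, ← sub_eq_add_neg, h0])
    exact one_ne_zero this.1
  have hpos : 0 < inner ℝ (u - c • v) (u - c • v) := real_inner_self_pos.2 hne
  have e : inner ℝ (u - c • v) (u - c • v) =
      inner ℝ u u - 2 * c * inner ℝ u v + c ^ 2 * inner ℝ v v := by
    rw [inner_sub_left, inner_sub_right, inner_sub_right, real_inner_smul_left,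
      real_inner_smul_right, real_inner_smul_right, real_inner_smul_left, real_inner_comm u v]
    ring
  rw [e, hc] at hpos
  have e2 : inner ℝ u u - 2 * (inner ℝ u v / inner ℝ v v) * inner ℝ u v +
      (inner ℝ u v / inner ℝ v v) ^ 2 * inner ℝ v v =
      (inner ℝ u u * inner ℝ v v - inner ℝ u v ^ 2) / inner ℝ v v := by
    field_simp
    ring
  rw [e2, div_pos_iff_of_pos_right hvv] at hpos
  nlinarith

end Pool.Agent.H70En
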